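import Pool.Agent.Q31.IT.Stage

set_option autoImplicit false

/-!
# The periodic chain of the pretzel knots P(3, -3, 2k+1)

Every point is fixed by all `x i`, `g i`.
-/

namespace Pool.Agent.Q31.IT

/-- The relations between `x i` and `g i = (w i)⁻¹`: with `a i = x i g i (x i)⁻¹ g i` and
`b i = (g i)⁻¹ x i (g i) ^ k` they are `a (i+1) = a i w i` and `b (i+1) = x i b i`. -/
structure Rel {P : Type*} [Group P] {n : ℕ} (k : ℕ) (x g : ZMod n → P) : Prop where
  relA : ∀ i, x (i + 1) * g (i + 1) * (x (i + 1))⁻¹ * g (i + 1) = x i * g i * (x i)⁻¹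
  relB : ∀ i, (g (i + 1))⁻¹ * x (i + 1) * g (i + 1) ^ k = x i * ((g i)⁻¹ * x i * g i ^ k)

section cyc
variable {n : ℕ} [NeZero n]

theorem all_of_pred {S : ZMod n → Prop} (h : ∀ i, S (i + 1) → S i) {i : ZMod n} (h0 : S i)
    (j : ZMod n) : S j := by
  have key : ∀ m : ℕ, S (i - (m : ZMod n)) := by
    intro m
    induction m with
    | zero => simpa using h0
    | succ m ih =>
      apply h
      have : i - ((m + 1 : ℕ) : ZMod n) + 1 = i - (m : ZMod n) := by push_cast; ring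
      rwa [this]
  have h1 := key (i - j).val
  rwa [ZMod.natCast_zmod_val, sub_sub_cancel] at h1

theorem all_of_succ {S : ZMod n → Prop} (h : ∀ i, S i → S (i + 1)) {i : ZMod n} (h0 : S i)
    (j : ZMod n) : S j := by
  have key : ∀ m : ℕ, S (i + (m : ZMod n)) := by
    intro m
    induction m with
    | zero => simpa using h0
    | succ m ih =>
      have h1 := h _ ih
      have : i + ((m + 1 : ℕ) : ZMod n) = i + (m : ZMod n) + 1 := by push_cast; ring
      rwa [this]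
  have h1 := key (j - i).val
  rwa [ZMod.natCast_zmod_val, add_sub_cancel] at h1

theorem no_decr {Ω : Type*} [LinearOrder Ω] {f : ZMod n → Ω} (h : ∀ i, f (i + 1) < f i) :
    False := by
  obtain ⟨i, hi⟩ := Finite.exists_min f
  exact absurd (hi (i + 1)) (not_le.mpr (h i))

theorem no_incr {Ω : Type*} [LinearOrder Ω] {f : ZMod n → Ω} (h : ∀ i, f i < f (i + 1)) :
    False := by
  obtain ⟨i, hi⟩ := Finite.exists_max f
  exact absurd (hi (i + 1)) (not_le.mpr (h i))

end cyc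

section T
variable {Ω : Type*} [CompleteLinearOrder Ω]

/-- The trap: `a⁻¹ p ≤ a b p` and `b p ≤ a ^ k p`, not both equalities. -/
def Trap (k : ℕ) (a b : Ω ≃o Ω) (p : Ω) : Prop :=
  a⁻¹ p ≤ a (b p) ∧ b p ≤ (a ^ k) p ∧ ¬ (a⁻¹ p = a (b p) ∧ b p = (a ^ k) p)

/-- The dual trap. -/
def Trap' (k : ℕ) (a b : Ω ≃o Ω) (p : Ω) : Prop :=
  a (b p) ≤ a⁻¹ p ∧ (a ^ k) p ≤ b p ∧ ¬ (a⁻¹ p = a (b p) ∧ b p = (a ^ k) p)

/-- Passing to the reversed order. -/
def dualHom (Ω : Type*) [CompleteLinearOrder Ω] : (Ω ≃o Ω) →* (Ωᵒᵈ ≃o Ωᵒᵈ) where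
  toFun f := f.dual
  map_one' := rfl
  map_mul' _ _ := rfl

theorem trap'_dual {k : ℕ} {a b : Ω ≃o Ω} {p : Ω} (h : Trap' k a b p) :
    Trap (Ω := Ωᵒᵈ) k (dualHom Ω a) (dualHom Ω b) (OrderDual.toDual p) := by
  unfold Trap
  rw [← map_pow, ← map_inv]
  exact h

theorem Rel.map {P Q : Type*} [Group P] [Group Q] {n : ℕ} {k : ℕ} {x g : ZMod n → P}
    (R : Rel k x g) (φ : P →* Q) : Rel k (fun i => φ (x i)) (fun i => φ (g i)) := by
  constructor
  · intro i
    have := congrArg φ (R.relA i)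
    simpa only [map_mul, map_inv] using this
  · intro i
    have := congrArg φ (R.relB i)
    simpa only [map_mul, map_inv, map_pow] using this

end T

section chain
variable {Ω : Type*} [CompleteLinearOrder Ω] {n k : ℕ} {x g : ZMod n → Ω ≃o Ω}

/-- `a i`. -/
def fa (x g : ZMod n → Ω ≃o Ω) (i : ZMod n) : Ω ≃o Ω := x i * g i * (x i)⁻¹ * g i

/-- `b i`. -/
def fb (k : ℕ) (x g : ZMod n → Ω ≃o Ω) (i : ZMod n) : Ω ≃o Ω := (g i)⁻¹ * x i * g i ^ k

theorem Rel.fa_succ (R : Rel k x g) (i : ZMod n) :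
    fa x g (i + 1) = x i * g i * (x i)⁻¹ := R.relA i

theorem Rel.fb_succ (R : Rel k x g) (i : ZMod n) :
    fb k x g (i + 1) = x i * fb k x g i := R.relB i

theorem fa_dual (i : ZMod n) : fa (Ω := Ωᵒᵈ) (fun i => dualHom Ω (x i))
    (fun i => dualHom Ω (g i)) i = dualHom Ω (fa x g i) := by
  unfold fa; simp only [map_mul, map_inv]

theorem fb_dual (i : ZMod n) : fb (Ω := Ωᵒᵈ) k (fun i => dualHom Ω (x i))
    (fun i => dualHom Ω (g i)) i = dualHom Ω (fb k x g i) := by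
  unfold fb; simp only [map_mul, map_inv, map_pow]

/-- `a b` at `p` before the stage. -/
theorem fab (i : ZMod n) (p : Ω) :
    fa x g i (fb k x g i p) = x i ((g i ^ (k + 1)) p) := by
  have : fa x g i * fb k x g i = x i * g i ^ (k + 1) := by
    unfold fa fb; rw [pow_succ']; group
  exact congrArg (fun f : Ω ≃o Ω => f p) this

/-- `a b` at `p` after the stage. -/
theorem Rel.fab' (R : Rel k x g) (i : ZMod n) (p : Ω) :
    fa x g (i + 1) (fb k x g (i + 1) p) = x i (x i ((g i ^ k) p)) := by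
  have : fa x g (i + 1) * fb k x g (i + 1) = x i * (x i * g i ^ k) := by
    rw [R.fa_succ, R.fb_succ]; unfold fb; group
  exact congrArg (fun f : Ω ≃o Ω => f p) this

/-- The trap goes back by one level, with strict inequalities. -/
theorem Rel.trap_back (R : Rel k x g) (i : ZMod n) (p : Ω)
    (h : Trap k (fa x g (i + 1)) (fb k x g (i + 1)) p) :
    p < g i p ∧ Trap k (fa x g i) (fb k x g i) p := by
  obtain ⟨h1, h2, h3⟩ := h
  have hc : (fa x g (i + 1) ^ k) p = x i ((g i ^ k) ((x i)⁻¹ p)) := by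
    rw [R.fa_succ]
    have := conj_pow_a (x i) (g i) k ((x i)⁻¹ p)
    rwa [a_inv] at this
  have ha : (fa x g (i + 1))⁻¹ p = x i ((g i)⁻¹ ((x i)⁻¹ p)) := by
    rw [R.fa_succ, mul_inv_rev, mul_inv_rev, inv_inv]; rfl
  have hb : fb k x g (i + 1) p = x i ((g i)⁻¹ (x i ((g i ^ k) p))) := by
    rw [R.fb_succ]; rfl
  rw [R.fab', hc, ha, hb] at h3
  rw [R.fab', ha, (x i).le_iff_le] at h1
  rw [hc, hb, (x i).le_iff_le] at h2
  set r := (g i)⁻¹ ((x i)⁻¹ p) with hr
  set s := x i ((g i ^ k) p) with hs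
  have e1 : g i r = (x i)⁻¹ p := by rw [hr, a_inv]
  have hp : p = x i (g i r) := by rw [e1, a_inv]
  have e2 : g i ((g i ^ k) ((x i)⁻¹ p)) = (g i ^ (k + 2)) r := by
    rw [pow_s, pow_s', e1]
  have H1 : s ≤ (g i ^ (k + 2)) r := by
    rw [← e2, ← (g i)⁻¹.le_iff_le, inv_a]; exact h2
  have H3 : ¬ (s = (g i ^ (k + 2)) r ∧ r = s) := by
    rintro ⟨h4, h5⟩
    apply h3
    constructor
    · exact congrArg (x i) h5
    · apply congrArg (x i)
      rw [h4, ← e2, inv_a]
  obtain ⟨h4, h5, h6⟩ := back hp hs H1 h1 H3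
  have ha0 : (fa x g i)⁻¹ p = (g i)⁻¹ (x i r) := by
    unfold fa
    rw [mul_inv_rev, mul_inv_rev, mul_inv_rev, inv_inv]; rfl
  have h7 : (fa x g i)⁻¹ p < fa x g i (fb k x g i p) := by
    rw [ha0, fab, ← (g i).lt_iff_lt, a_inv]; exact h5
  refine ⟨h4, h7.le, h6.le, fun h8 => absurd h8.1 h7.ne⟩

theorem Rel.step_a (R : Rel k x g) (i : ZMod n) (p : Ω) :
    fa x g (i + 1) (g i p) = fa x g i p := by
  rw [R.fa_succ]; rfl

theorem Rel.no_trap [NeZero n] (R : Rel k x g) (i : ZMod n) (p : Ω) :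
    ¬ Trap k (fa x g i) (fb k x g i) p := by
  intro h
  have key := all_of_pred (S := fun j => Trap k (fa x g j) (fb k x g j) p)
    (fun j hj => (R.trap_back j p hj).2) h
  refine no_decr (f := fun j => fa x g j p) ?_
  intro j
  have h1 := (R.trap_back j p (key (j + 1))).1
  show fa x g (j + 1) p < fa x g j p
  rw [← R.step_a j p]
  exact (fa x g (j + 1)).lt_iff_lt.mpr h1

theorem Rel.no_trap' [NeZero n] (R : Rel k x g) (i : ZMod n) (p : Ω) :
    ¬ Trap' k (fa x g i) (fb k x g i) p := by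
  intro h
  apply (R.map (dualHom Ω)).no_trap i (OrderDual.toDual p)
  rw [fa_dual, fb_dual]
  exact trap'_dual h

/-- `p` is up at `i`. -/
def Up (k : ℕ) (x g : ZMod n → Ω ≃o Ω) (i : ZMod n) (p : Ω) : Prop :=
  (fa x g i)⁻¹ p < fa x g i (fb k x g i p)

/-- `p` is down at `i`. -/
def Down (k : ℕ) (x g : ZMod n → Ω ≃o Ω) (i : ZMod n) (p : Ω) : Prop :=
  fa x g i (fb k x g i p) < (fa x g i)⁻¹ p

theorem down_dual {i : ZMod n} {p : Ω} (h : Down k x g i p) :
    Up (Ω := Ωᵒᵈ) k (fun i => dualHom Ω (x i)) (fun i => dualHom Ω (g i)) i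
      (OrderDual.toDual p) := by
  unfold Up
  rw [fa_dual, fb_dual]
  exact h

theorem lt_inv {f : Ω ≃o Ω} {p : Ω} (h : f p < p) : p < f⁻¹ p := by
  rw [← f.lt_iff_lt, a_inv]; exact h

theorem Rel.up_spec [NeZero n] (R : Rel k x g) {i : ZMod n} {p : Ω} (h : Up k x g i p) :
    p < fb k x g i p ∧ p < fa x g i (fb k x g i p) ∧ (fa x g i ^ k) p < fb k x g i p := by
  have h1 : (fa x g i ^ k) p < fb k x g i p := by
    by_contra h1
    rw [not_lt] at h1
    exact R.no_trap i p ⟨h.le, h1, fun h2 => absurd h2.1 (ne_of_lt h)⟩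
  rcases le_or_gt p (fa x g i p) with h2 | h2
  · have h3 : p < fb k x g i p := lt_of_le_of_lt (up_pow h2 k) h1
    exact ⟨h3, lt_of_le_of_lt h2 ((fa x g i).lt_iff_lt.mpr h3), h1⟩
  · have h3 : p < (fa x g i)⁻¹ p := lt_inv h2
    have h4 : p < fa x g i (fb k x g i p) := h3.trans h
    refine ⟨?_, h4, h1⟩
    have h5 : p < fa x g i (fa x g i (fb k x g i p)) := by
      have := (fa x g i).lt_iff_lt.mpr h
      rwa [a_inv] at this
    have h6 : fa x g i (fa x g i (fb k x g i p)) < fa x g i (fa x g i ((fa x g i)⁻¹ p)) ∨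
        (fa x g i)⁻¹ p ≤ fb k x g i p := by
      rcases le_or_gt ((fa x g i)⁻¹ p) (fb k x g i p) with h7 | h7
      · exact Or.inr h7
      · exact Or.inl ((fa x g i).lt_iff_lt.mpr ((fa x g i).lt_iff_lt.mpr h7))
    rcases h6 with h6 | h6
    · rw [a_inv] at h6
      exact absurd (h5.trans h6) (not_lt.mpr h2.le)
    · exact lt_of_lt_of_le h3 h6

theorem Rel.down_spec [NeZero n] (R : Rel k x g) {i : ZMod n} {p : Ω} (h : Down k x g i p) :
    fb k x g i p < p ∧ fa x g i (fb k x g i p) < p ∧ fb k x g i p < (fa x g i ^ k) p := by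
  obtain ⟨h2, h3, h4⟩ := (R.map (dualHom Ω)).up_spec (down_dual h)
  rw [fa_dual, fb_dual] at h3
  rw [fb_dual] at h2
  rw [fa_dual, fb_dual, ← map_pow] at h4
  exact ⟨h2, h3, h4⟩

theorem Rel.eq_spec [NeZero n] (R : Rel k x g) {i : ZMod n} {p : Ω}
    (h1 : ¬ Up k x g i p) (h2 : ¬ Down k x g i p) :
    fa x g i p = p ∧ fb k x g i p = p := by
  have h : (fa x g i)⁻¹ p = fa x g i (fb k x g i p) :=
    le_antisymm (not_lt.mp h2) (not_lt.mp h1)
  have h3 : (fa x g i ^ k) p ≤ fb k x g i p := by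
    by_contra h3
    rw [not_le] at h3
    exact R.no_trap i p ⟨h.le, h3.le, fun h4 => absurd h4.2 h3.ne⟩
  have h4 : fb k x g i p ≤ (fa x g i ^ k) p := by
    by_contra h4
    rw [not_le] at h4
    exact R.no_trap' i p ⟨h.ge, h4.le, fun h5 => absurd h5.2 h4.ne'⟩
  have h5 : fb k x g i p = (fa x g i ^ k) p := le_antisymm h4 h3
  have h6 : (fa x g i ^ (k + 2)) p = p := by
    rw [pow_s, pow_s, ← h5, ← h, a_inv]
  have h7 : fa x g i p = p := by
    rcases lt_trichotomy (fa x g i p) p with h8 | h8 | h8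
    · exfalso
      have h9 : (fa x g i ^ (k + 2)) p ≤ fa x g i p := by
        rw [pow_s]; exact (fa x g i).le_iff_le.mpr (down_pow h8.le _)
      rw [h6] at h9
      exact absurd h8 (not_lt.mpr h9)
    · exact h8
    · exfalso
      have h9 : fa x g i p ≤ (fa x g i ^ (k + 2)) p := by
        rw [pow_s]; exact (fa x g i).le_iff_le.mpr (up_pow h8.le _)
      rw [h6] at h9
      exact absurd h8 (not_lt.mpr h9)
  exact ⟨h7, by rw [h5, fix_pow h7]⟩

theorem Rel.up_succ [NeZero n] (R : Rel k x g) (i : ZMod n) {p : Ω} (h : Up k x g i p) :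
    Up k x g (i + 1) p := by
  by_contra hcon
  obtain ⟨h1, h2, h3⟩ := R.up_spec h
  have h4 : fb k x g (i + 1) p ≤ p ∧ fa x g (i + 1) (fb k x g (i + 1) p) ≤ p := by
    by_cases hd : Down k x g (i + 1) p
    · obtain ⟨h5, h6, -⟩ := R.down_spec hd
      exact ⟨h5.le, h6.le⟩
    · obtain ⟨h5, h6⟩ := R.eq_spec hcon hd
      rw [h6, h5]
      exact ⟨le_rfl, le_rfl⟩
  obtain ⟨h5, h6⟩ := h4
  rw [R.fab'] at h6
  have hb : fb k x g (i + 1) p = x i ((g i)⁻¹ (x i ((g i ^ k) p))) := by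
    rw [R.fb_succ]; rfl
  rw [hb] at h5
  rw [fab] at h2
  exact forth rfl h1 h2 h3.le h5 h6

theorem Rel.no_up [NeZero n] (R : Rel k x g) (i : ZMod n) (p : Ω) : ¬ Up k x g i p := by
  intro h
  have key := all_of_succ (S := fun j => Up k x g j p) (fun j hj => R.up_succ j hj) h
  refine no_incr (f := fun j => fa x g j (fb k x g j (fb k x g j p))) ?_
  intro j
  obtain ⟨h1, -, -⟩ := R.up_spec (key (j + 1))
  set u := fb k x g (j + 1) p with hu
  have h2 : u < fb k x g (j + 1) u := (fb k x g (j + 1)).lt_iff_lt.mpr h1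
  have h3 : Up k x g (j + 1) u := by
    by_contra h3
    by_cases hd : Down k x g (j + 1) u
    · exact absurd (R.down_spec hd).1 (not_lt.mpr h2.le)
    · exact absurd (R.eq_spec h3 hd).2 h2.ne'
  have h4 := (R.up_spec h3).2.2
  have h5 : (fa x g (j + 1)) ((fa x g (j + 1) ^ k) u) < fa x g (j + 1) (fb k x g (j + 1) u) :=
    (fa x g (j + 1)).lt_iff_lt.mpr h4
  refine lt_of_eq_of_lt ?_ h5
  rw [← pow_s]
  have : fa x g j * fb k x g j * fb k x g j = fa x g (j + 1) ^ (k + 1) * fb k x g (j + 1) := by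
    rw [R.fa_succ, R.fb_succ, conj_pow]
    unfold fa fb
    rw [pow_succ' (g j) k]
    group
  exact congrArg (fun f : Ω ≃o Ω => f p) this

theorem Rel.no_down [NeZero n] (R : Rel k x g) (i : ZMod n) (p : Ω) : ¬ Down k x g i p := by
  intro h
  exact (R.map (dualHom Ω)).no_up i (OrderDual.toDual p) (down_dual h)

/-- Every point is fixed by all `x i`, `g i`. -/
theorem Rel.fixed [NeZero n] (R : Rel k x g) (i : ZMod n) (p : Ω) : x i p = p ∧ g i p = p := by
  obtain ⟨h1, h2⟩ := R.eq_spec (R.no_up i p) (R.no_down i p)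
  obtain ⟨h3, h4⟩ := R.eq_spec (R.no_up (i + 1) p) (R.no_down (i + 1) p)
  constructor
  · have h5 : fb k x g (i + 1) p = x i (fb k x g i p) := by rw [R.fb_succ]; rfl
    rw [h4, h2] at h5
    exact h5.symm
  · have h5 := R.step_a i p
    rw [h1] at h5
    exact (fa x g (i + 1)).injective (h5.trans h3.symm)

end chain

end Pool.Agent.Q31.IT
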