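import Pool.Agent.Q31.IT.Chain
import Pool.Agent.TH821.HexGroup

set_option autoImplicit false

/-!
# Left-ordered groups and the relations of the pretzel knots P(3, -3, 2k+1)
-/

namespace Pool.Agent.Q31.IT

open Pool.Agent.W705.Borr Pool.Agent.TH821.Chain Pool.Agent.TH821.Cyc

section act
variable {H : Type*} [Group H] [LinearOrder H] (hinv : ∀ a b c : H, a ≤ b ↔ c * a ≤ c * b)

/-- The action of a left-ordered group on its lower sets. -/
noncomputable def actHom : H →* (LowerSet H ≃o LowerSet H) where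
  toFun h := act hinv h
  map_one' := by
    apply DFunLike.ext
    intro v
    exact act_one hinv v
  map_mul' a b := by
    apply DFunLike.ext
    intro v
    exact act_mul hinv a b v

include hinv in
/-- In a left-ordered group the relations force triviality. -/
theorem rel_trivial {n : ℕ} [NeZero n] {k : ℕ} {x g : ZMod n → H} (R : Rel k x g) (i : ZMod n) :
    x i = 1 ∧ g i = 1 := by
  have h := (R.map (actHom hinv)).fixed i
  exact ⟨eq_one_of_act hinv _ fun v => (h v).1, eq_one_of_act hinv _ fun v => (h v).2⟩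

end act

section kernel
variable {G : Type*} [Group G] {n : ℕ}

/-- Homomorphisms from the kernel of `d` to a left-ordered group are trivial. -/
theorem hom_trivial (hn : 0 < n) {s X Y : G} (hs : s ^ n = 1)
    (hgen : ∀ K : Subgroup G, s ∈ K → X ∈ K → Y ∈ K → K = ⊤)
    (d : G →* Multiplicative (ZMod n)) (ds : d s = Multiplicative.ofAdd 1) (dX : d X = 1)
    (dY : d Y = 1) (k : ℕ)
    (A : s * (X * Y * X⁻¹ * Y) * s⁻¹ = X * Y * X⁻¹)
    (B : s * (Y⁻¹ * X * Y ^ k) * s⁻¹ = X * (Y⁻¹ * X * Y ^ k))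
    {H : Type*} [Group H] [LinearOrder H] (hinv : ∀ a b c : H, a ≤ b ↔ c * a ≤ c * b)
    (φ : d.ker →* H) (g : d.ker) : φ g = 1 := by
  have : NeZero n := ⟨hn.ne'⟩
  set X' : d.ker := ⟨X, dX⟩ with hX'
  set Y' : d.ker := ⟨Y, dY⟩ with hY'
  have key : ∀ (i : ZMod n) (x y : d.ker), s * x.1 * s⁻¹ = y.1 →
      φ (Pool.Agent.TH821.Hex.ck d s (i + 1) x) = φ (Pool.Agent.TH821.Hex.ck d s i y) := by
    intro i x y hxy
    congr 1
    apply Subtype.ext
    show cj s x.1 (i + 1) = cj s y.1 i
    rw [Pool.Agent.TH821.Hex.cj_shift hn hs, hxy]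
  have R : Rel k (fun i => φ (Pool.Agent.TH821.Hex.ck d s i X'))
      (fun i => φ (Pool.Agent.TH821.Hex.ck d s i Y')) := by
    constructor
    · intro i
      have := key i (X' * Y' * X'⁻¹ * Y') (X' * Y' * X'⁻¹) A
      simpa only [map_mul, map_inv, map_pow] using this
    · intro i
      have := key i (Y'⁻¹ * X' * Y' ^ k) (X' * (Y'⁻¹ * X' * Y' ^ k)) B
      simpa only [map_mul, map_inv, map_pow] using this
  have triv := fun i => rel_trivial hinv R i
  have h1 : N n s X Y ≤ φ.ker.map d.ker.subtype := by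
    unfold N
    rw [Subgroup.closure_le]
    rintro _ (⟨i, rfl⟩ | ⟨i, rfl⟩)
    · exact ⟨Pool.Agent.TH821.Hex.ck d s i X', (triv i).1, rfl⟩
    · exact ⟨Pool.Agent.TH821.Hex.ck d s i Y', (triv i).2, rfl⟩
  obtain ⟨g', hg', hgg⟩ := h1 (ker_le hn hs hgen d ds dX dY g.2)
  have : g' = g := Subtype.ext hgg
  rw [← this]; exact hg'

end kernel

end Pool.Agent.Q31.IT
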