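import Pool.Agent.TH821.HexStage

set_option autoImplicit false

/-!
# One stage of the chain of the pretzel knots P(3, -3, 2k+1)

`x, g` are order automorphisms of a complete linear order (`g` is the inverse of the generator
`w`).  The surface group is generated by `a = x g x⁻¹ g`, `b = g⁻¹ x g ^ k` before the stage and
by `a' = x g x⁻¹`, `b' = x b` after the stage.
-/

namespace Pool.Agent.Q31.IT

open Pool.Agent.TH821.Hex

variable {Ω : Type*} [CompleteLinearOrder Ω]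

theorem ma (f h : Ω ≃o Ω) (u : Ω) : (f * h) u = f (h u) := rfl

theorem inv_a (f : Ω ≃o Ω) (u : Ω) : f⁻¹ (f u) = u := f.symm_apply_apply u

theorem a_inv (f : Ω ≃o Ω) (u : Ω) : f (f⁻¹ u) = u := f.apply_symm_apply u

theorem pow_s (f : Ω ≃o Ω) (k : ℕ) (u : Ω) : (f ^ (k + 1)) u = f ((f ^ k) u) := by
  rw [pow_succ']; rfl

theorem pow_s' (f : Ω ≃o Ω) (k : ℕ) (u : Ω) : (f ^ (k + 1)) u = (f ^ k) (f u) := by
  rw [pow_succ]; rfl

theorem pow_z (f : Ω ≃o Ω) (u : Ω) : (f ^ 0) u = u := rfl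

theorem up_pow {f : Ω ≃o Ω} {u : Ω} (h : u ≤ f u) (k : ℕ) : u ≤ (f ^ k) u := by
  induction k with
  | zero => exact le_rfl
  | succ k ih => rw [pow_s]; exact h.trans (f.le_iff_le.mpr ih)

theorem down_pow {f : Ω ≃o Ω} {u : Ω} (h : f u ≤ u) (k : ℕ) : (f ^ k) u ≤ u := by
  induction k with
  | zero => exact le_rfl
  | succ k ih => rw [pow_s]; exact (f.le_iff_le.mpr ih).trans h

theorem fix_pow {f : Ω ≃o Ω} {u : Ω} (h : f u = u) (k : ℕ) : (f ^ k) u = u :=
  le_antisymm (down_pow h.le k) (up_pow h.ge k)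

theorem lt_fix {f : Ω ≃o Ω} {u n : Ω} (h : f n = n) (hu : u < n) (k : ℕ) : (f ^ k) u < n := by
  have := (f ^ k).lt_iff_lt.mpr hu
  rwa [fix_pow h] at this

theorem le_fix {f : Ω ≃o Ω} {u n : Ω} (h : f n = n) (hu : u ≤ n) (k : ℕ) : (f ^ k) u ≤ n := by
  have := (f ^ k).le_iff_le.mpr hu
  rwa [fix_pow h] at this

theorem fix_le {f : Ω ≃o Ω} {u n : Ω} (h : f n = n) (hu : n ≤ u) (k : ℕ) : n ≤ (f ^ k) u := by
  have := (f ^ k).le_iff_le.mpr hu
  rwa [fix_pow h] at this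

/-- An automorphism that is up at `u` is up on `[u, f ^ k u]`. -/
theorem up_on {f : Ω ≃o Ω} {u : Ω} (h : u < f u) (k : ℕ) {v : Ω} (h1 : u ≤ v)
    (h2 : v ≤ (f ^ k) u) : v < f v := by
  by_contra h3
  rw [not_lt] at h3
  obtain ⟨n, n1, n2, n3⟩ := fixUD f h1 h h3
  exact absurd (lt_fix n3 n1 k) (not_lt.mpr (n2.trans h2))

/-- If `f` and `g` are up on `[p, e]` then the iterates of `f g` pass those of `f` and of `g`, or
`e`. -/
theorem iter_min {f g : Ω ≃o Ω} {p e : Ω} (hpe : p ≤ e) (hf : ∀ u, p ≤ u → u ≤ e → u ≤ f u)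
    (hg : ∀ u, p ≤ u → u ≤ e → u ≤ g u) (j : ℕ) :
    p ≤ ((f * g) ^ j) p ∧ (((f * g) ^ j) p < e → (g ^ j) p ≤ ((f * g) ^ j) p ∧
      (f ^ j) p ≤ ((f * g) ^ j) p) := by
  induction j with
  | zero => exact ⟨le_rfl, fun _ => ⟨le_rfl, le_rfl⟩⟩
  | succ j ih =>
    obtain ⟨h1, h2⟩ := ih
    rw [pow_s, pow_s, pow_s, ma]
    set u := ((f * g) ^ j) p with hu
    have hfe : e ≤ f e := hf e hpe le_rfl
    have hge : e ≤ g e := hg e hpe le_rfl
    rcases le_or_gt e u with h3 | h3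
    · have h4 : e ≤ f (g u) := hfe.trans (f.le_iff_le.mpr (hge.trans (g.le_iff_le.mpr h3)))
      exact ⟨hpe.trans h4, fun h5 => absurd h5 (not_lt.mpr h4)⟩
    · obtain ⟨h4, h5⟩ := h2 h3
      have h6 : u ≤ g u := hg u h1 h3.le
      have h7 : f u ≤ f (g u) := f.le_iff_le.mpr h6
      refine ⟨(h1.trans (hf u h1 h3.le)).trans h7, fun h8 => ⟨?_, ?_⟩⟩
      · have h9 : g u < e := by
          by_contra h9
          rw [not_lt] at h9
          exact absurd h8 (not_lt.mpr (hfe.trans (f.le_iff_le.mpr h9)))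
        exact (g.le_iff_le.mpr h4).trans (hf _ (h1.trans h6) h9.le)
      · exact (f.le_iff_le.mpr h5).trans h7

theorem conj_pow_a (x g : Ω ≃o Ω) (k : ℕ) (u : Ω) :
    ((x * g * x⁻¹) ^ k) (x u) = x ((g ^ k) u) := by
  rw [conj_pow]
  show x ((g ^ k) (x⁻¹ (x u))) = _
  rw [inv_a]

/-- The backward step: here `p = x (g r)`, `s = x (g ^ k p)`. -/
theorem back {x g : Ω ≃o Ω} {k : ℕ} {r p s : Ω} (hp : p = x (g r)) (hs : s = x ((g ^ k) p))
    (H1 : s ≤ (g ^ (k + 2)) r) (H2 : r ≤ s) (H3 : ¬ (s = (g ^ (k + 2)) r ∧ r = s)) :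
    p < g p ∧ x r < g (x ((g ^ (k + 1)) p)) ∧ g⁻¹ s < ((x * g * x⁻¹ * g) ^ k) p := by
  -- `w` is down at `r`
  have hr : r < g r := by
    by_contra h
    rw [not_lt] at h
    have h1 := down_pow h (k + 2)
    exact H3 ⟨le_antisymm H1 (h1.trans H2), le_antisymm H2 (H1.trans h1)⟩
  have hup : ∀ v, r ≤ v → v ≤ (g ^ (k + 2)) r → v < g v := fun v h1 h2 => up_on hr _ h1 h2
  have hpow : (g ^ (k + 2)) r = (g ^ (k + 1)) (g r) := pow_s' g (k + 1) r
  -- `w` is down at `p`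
  have C0 : p < g p := by
    by_contra h
    rw [not_lt] at h
    rcases le_or_gt p (g r) with h1 | h1
    · obtain ⟨n, n1, n2, n3⟩ := fixNU g h1 h (g.lt_iff_lt.mpr hr)
      have h2 : (g ^ k) p ≤ n := le_fix n3 n1 k
      have h3 : s ≤ n := by
        rw [hs]
        refine (x.le_iff_le.mpr (h2.trans n2.le)).trans ?_
        rw [← hp]; exact n1
      have h4 : n < r := by
        rw [← g.lt_iff_lt, n3]; exact n2
      exact absurd (H2.trans h3) (not_le.mpr h4)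
    · obtain ⟨n, n1, n2, n3⟩ := fixUD g h1.le (g.lt_iff_lt.mpr hr) h
      have h2 : s < n := by
        refine lt_of_le_of_lt H1 ?_
        rw [hpow]; exact lt_fix n3 n1 _
      have h3 : x n ≤ s := by
        rw [hs]; exact x.le_iff_le.mpr (fix_le n3 n2 k)
      have h4 : p < x n := by
        rw [hp]; exact x.lt_iff_lt.mpr n1
      exact absurd (h4.trans_le (h3.trans h2.le)) (not_lt.mpr n2)
  refine ⟨C0, ?_, ?_⟩
  · have h1 : x r < p := by rw [hp]; exact x.lt_iff_lt.mpr hr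
    refine lt_of_lt_of_le h1 ?_
    by_contra h2
    rw [not_le] at h2
    have h3 : s < x ((g ^ (k + 1)) p) := by
      rw [hs, pow_s']
      exact x.lt_iff_lt.mpr ((g ^ k).lt_iff_lt.mpr C0)
    have h4 : g r < p := lt_of_le_of_lt (g.le_iff_le.mpr H2) ((g.lt_iff_lt.mpr h3).trans h2)
    have h5 : p < x p := by
      have := x.lt_iff_lt.mpr h4
      rwa [← hp] at this
    have h6 : p < (g ^ (k + 1)) p := by
      rw [pow_s']
      exact lt_of_lt_of_le C0 (up_pow (g.le_iff_le.mpr C0.le) k)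
    have h7 : g (x p) < p := (g.lt_iff_lt.mpr (x.lt_iff_lt.mpr h6)).trans h2
    exact absurd (C0.trans (g.lt_iff_lt.mpr h5)) (not_lt.mpr h7.le)
  · by_contra hcon
    rw [not_lt] at hcon
    have hss : s < g s := hup s H2 H1
    have ht : g⁻¹ s < s := by
      rw [← g.lt_iff_lt, a_inv]; exact hss
    have ht2 : g⁻¹ s ≤ (g ^ k) (g r) := by
      rw [← g.le_iff_le, a_inv, ← pow_s, ← hpow]; exact H1
    have hxs : x⁻¹ s = (g ^ k) p := by rw [hs, inv_a]
    have hup2 : ∀ v, p ≤ v → v ≤ (g ^ k) p → v ≤ g v := fun v h1 h2 => (up_on C0 _ h1 h2).le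
    have hfp : p ≤ (x * g * x⁻¹) p := by
      show p ≤ x (g (x⁻¹ p))
      have h1 : x⁻¹ p = g r := by rw [hp, inv_a]
      rw [h1]
      conv_lhs => rw [hp]
      exact x.le_iff_le.mpr (g.le_iff_le.mpr hr.le)
    have e1 : (x * g * x⁻¹ * g) = (x * g * x⁻¹) * g := rfl
    rw [e1] at hcon
    -- `p ≤ g⁻¹ s`
    have hpt : p ≤ g⁻¹ s := by
      refine le_trans ?_ hcon
      exact (iter_min (f := x * g * x⁻¹) (g := g) (le_refl p)
        (fun u h1 h2 => by rw [le_antisymm h2 h1]; exact hfp)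
        (fun u h1 h2 => by rw [le_antisymm h2 h1]; exact C0.le) k).1
    have hps : p ≤ s := hpt.trans ht.le
    -- `g` is up on `[p, s]` and on `[g r, g ^ k p]`
    have hG : ∀ u, p ≤ u → u ≤ s → u ≤ g u := by
      intro u h1 h2
      rcases le_or_gt r u with h3 | h3
      · exact (hup u h3 (h2.trans H1)).le
      · by_contra h4
        rw [not_le] at h4
        obtain ⟨n, n1, n2, n3⟩ := fixUD g h1 C0 h4.le
        have h5 : (g ^ k) p < n := lt_fix n3 n1 k
        have h6 : n < g r := lt_of_le_of_lt n2 (h3.trans hr)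
        have h7 : s < p := by
          rw [hs]
          refine (x.lt_iff_lt.mpr (h5.trans h6)).trans_eq ?_
          rw [← hp]
        exact absurd hps (not_le.mpr h7)
    have hF : ∀ u, p ≤ u → u ≤ s → u ≤ (x * g * x⁻¹) u := by
      intro u h1 h2
      show u ≤ x (g (x⁻¹ u))
      have h3 : g r ≤ x⁻¹ u := by
        rw [← x.le_iff_le, a_inv, ← hp]; exact h1
      have h4 : x⁻¹ u ≤ (g ^ k) p := by
        rw [← x.le_iff_le, a_inv, ← hs]; exact h2
      have h5 : x⁻¹ u ≤ g (x⁻¹ u) := by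
        rcases le_or_gt p (x⁻¹ u) with h6 | h6
        · exact hup2 _ h6 h4
        · refine (hup _ (hr.le.trans h3) (h6.le.trans ?_)).le
          rw [hpow, pow_s]
          refine (hpt.trans ht2).trans ?_
          have : g r ≤ g (g r) := g.le_iff_le.mpr hr.le
          have h7 := (g ^ k).le_iff_le.mpr this
          rwa [← pow_s' g k (g r), pow_s g k (g r)] at h7
      have h6 := x.le_iff_le.mpr h5
      rwa [a_inv] at h6
    obtain ⟨-, h1⟩ := iter_min (f := x * g * x⁻¹) (g := g) hps hF hG k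
    obtain ⟨h2, h3⟩ := h1 (lt_of_le_of_lt hcon ht)
    have h4 : ((x * g * x⁻¹) ^ k) p = x ((g ^ k) (g r)) := by
      rw [hp, conj_pow_a]
    rw [h4] at h3
    rcases le_or_gt p (g r) with h5 | h5
    · have h6 : s ≤ x ((g ^ k) (g r)) := by
        rw [hs]; exact x.le_iff_le.mpr ((g ^ k).le_iff_le.mpr h5)
      exact absurd ((h6.trans h3).trans hcon) (not_le.mpr ht)
    · have h6 : (g ^ k) (g r) < (g ^ k) p := (g ^ k).lt_iff_lt.mpr h5
      exact absurd ((h2.trans hcon).trans ht2) (not_le.mpr h6)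

/-- The forward step: `b p > p`, `a b p > p`, `b p ≥ a ^ k p` before the stage, `b' p ≤ p` and
`a' b' p ≤ p` after the stage: impossible. -/
theorem forth {x g : Ω ≃o Ω} {k : ℕ} {p s : Ω} (hs : s = x ((g ^ k) p))
    (hb : p < g⁻¹ s) (hc : p < x ((g ^ (k + 1)) p)) (ha : ((x * g * x⁻¹ * g) ^ k) p ≤ g⁻¹ s)
    (hb' : x (g⁻¹ s) ≤ p) (hc' : x s ≤ p) : False := by
  have h1 : x p < p := lt_of_lt_of_le (x.lt_iff_lt.mpr hb) hb'
  have C0 : p < g p := by
    by_contra h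
    rw [not_lt] at h
    have h2 : x ((g ^ (k + 1)) p) ≤ x p := x.le_iff_le.mpr (down_pow h _)
    exact absurd (hc.trans_le h2) (not_lt.mpr h1.le)
  have h2 : g p < s := by
    have := g.lt_iff_lt.mpr hb
    rwa [a_inv] at this
  have hps : p < s := C0.trans h2
  have h3 : s < (g ^ k) p := by
    rw [← x.lt_iff_lt, ← hs]
    exact lt_of_le_of_lt hc' hps
  have hup : ∀ v, p ≤ v → v ≤ (g ^ k) p → v < g v := fun v h1 h2 => up_on C0 _ h1 h2
  have ht : g⁻¹ s < s := by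
    rw [← g.lt_iff_lt, a_inv]; exact hup s hps.le h3.le
  have hq : p < x⁻¹ p := by
    rw [← x.lt_iff_lt, a_inv]; exact h1
  have hF : ∀ u, p ≤ u → u ≤ s → u ≤ (x * g * x⁻¹) u := by
    intro u h4 h5
    show u ≤ x (g (x⁻¹ u))
    have h6 : p ≤ x⁻¹ u := by
      rw [← x.le_iff_le, a_inv]; exact h1.le.trans h4
    have h7 : x⁻¹ u ≤ (g ^ k) p := by
      rw [← x.le_iff_le, a_inv, ← hs]; exact h5
    have h8 := x.le_iff_le.mpr (hup _ h6 h7).le
    rwa [a_inv] at h8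
  have hG : ∀ u, p ≤ u → u ≤ s → u ≤ g u := fun u h4 h5 => (hup u h4 (h5.trans h3.le)).le
  obtain ⟨-, h4⟩ := iter_min (f := x * g * x⁻¹) (g := g) hps.le hF hG k
  have ha' : (((x * g * x⁻¹) * g) ^ k) p ≤ g⁻¹ s := ha
  obtain ⟨-, h5⟩ := h4 (lt_of_le_of_lt ha' ht)
  have h6 : ((x * g * x⁻¹) ^ k) p = x ((g ^ k) (x⁻¹ p)) := by
    have := conj_pow_a x g k (x⁻¹ p)
    rwa [a_inv] at this
  rw [h6] at h5
  have h7 : s < x ((g ^ k) (x⁻¹ p)) := by
    rw [hs]
    exact x.lt_iff_lt.mpr ((g ^ k).lt_iff_lt.mpr hq)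
  exact absurd ((h7.trans_le h5).trans_le ha') (not_lt.mpr ht.le)

end Pool.Agent.Q31.IT
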